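import Pool.Agent.W889.SD.Deg
import Pool.Agent.H579R3.SE

set_option autoImplicit false

/-! Two-sided translations by stabilisers of partitions: faithful completeness. -/

namespace Pool.Agent.Q216.TW

open Set
open Pool.Agent.W889.VC
open Pool.Agent.W889.SD (rel K3 faithful_interp)

/-- the class of a point -/
def cl (w : ℕ) : ℕ := w.unpair.1

/-- the permutation preserves the partition into the fibres of `f` -/
def Pres (f : ℕ → ℕ) (σ : Equiv.Perm ℕ) : Prop := ∀ m n, f (σ m) = f (σ n) ↔ f m = f n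

theorem Pres.inv {f : ℕ → ℕ} {σ : Equiv.Perm ℕ} (h : Pres f σ) : Pres f σ⁻¹ := by
  intro m n
  rw [← h]
  have e : ∀ m, σ (σ⁻¹ m) = m := fun m => σ.apply_symm_apply m
  rw [e, e]

theorem Pres.perm {f : ℕ → ℕ} (hf : Function.Surjective f) {σ : Equiv.Perm ℕ} (h : Pres f σ) :
    ∃ π : Equiv.Perm ℕ, ∀ w, f (σ w) = π (f w) := by
  obtain ⟨s, hs⟩ := hf.hasRightInverse
  have h1 : ∀ w, f (σ (s (f w))) = f (σ w) := fun w => (h _ _).2 (hs _)
  have h2 : ∀ w, f (σ⁻¹ (s (f w))) = f (σ⁻¹ w) := fun w => (h.inv _ _).2 (hs _)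
  refine ⟨⟨fun m => f (σ (s m)), fun m => f (σ⁻¹ (s m)), fun m => ?_, fun m => ?_⟩, fun w => ?_⟩
  · show f (σ⁻¹ (s (f (σ (s m))))) = m
    rw [h2]
    show f (σ.symm (σ (s m))) = m
    rw [σ.symm_apply_apply, hs]
  · show f (σ (s (f (σ⁻¹ (s m))))) = m
    rw [h1]
    show f (σ (σ.symm (s m))) = m
    rw [σ.apply_symm_apply, hs]
  · exact (h1 w).symm

theorem surj_cl : Function.Surjective cl := fun m => ⟨Nat.pair m 0, by
  show (Nat.unpair (Nat.pair m 0)).1 = m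
  rw [Nat.unpair_pair]⟩

theorem eqv_of_inf {s t : Set ℕ} (hs : s.Infinite) (ht : t.Infinite) : Nonempty (s ≃ t) := by
  have := hs.to_subtype
  have := ht.to_subtype
  obtain ⟨i⟩ := nonempty_denumerable s
  obtain ⟨j⟩ := nonempty_denumerable t
  exact ⟨Denumerable.equiv₂ s t⟩

theorem inf_of {s : Set ℕ} (h : ∀ F : Finset ℕ, ∃ b, b ∉ F ∧ b ∈ s) : s.Infinite := by
  intro hf
  obtain ⟨b, h1, h2⟩ := h hf.toFinset
  exact h1 (hf.mem_toFinset.2 h2)

/-- matching along a difunctional relation with infinite sections -/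
theorem match_rel (R : ℕ → ℕ → Prop) (h1 : ∀ a (F : Finset ℕ), ∃ b, b ∉ F ∧ R a b)
    (h2 : ∀ b (F : Finset ℕ), ∃ a, a ∉ F ∧ R a b)
    (h3 : ∀ a b a' b', R a b → R a' b → R a' b' → R a b') :
    ∃ β : Equiv.Perm ℕ, ∀ a, R a (β a) := by
  let u : ℕ → Set ℕ := fun a => {b | R a b}
  let v : ℕ → Set ℕ := fun b => {b' | ∃ a, R a b ∧ R a b'}
  have huv : ∀ a b, R a b → u a = v b := by
    intro a b hab
    ext b'
    constructor
    · intro h
      exact ⟨a, hab, h⟩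
    · rintro ⟨a', h4, h5⟩
      exact h3 _ _ _ _ hab h4 h5
  obtain ⟨β, hβ⟩ := Pool.Agent.H579R3.SV.glue u v (fun c => by
    by_cases hc : ∃ a₀, u a₀ = c
    · obtain ⟨a₀, rfl⟩ := hc
      obtain ⟨b₀, -, hb₀⟩ := h1 a₀ ∅
      refine eqv_of_inf (s := {n | u n = u a₀}) (t := {n | v n = u a₀}) (inf_of fun F => ?_)
        (inf_of fun F => ?_)
      · obtain ⟨a, h4, h5⟩ := h2 b₀ F
        exact ⟨a, h4, (huv _ _ h5).trans (huv _ _ hb₀).symm⟩
      · obtain ⟨b, h4, h5⟩ := h1 a₀ F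
        exact ⟨b, h4, (huv _ _ h5).symm⟩
    · have e1 : IsEmpty {n // u n = c} := ⟨fun n => hc ⟨n.1, n.2⟩⟩
      have e2 : IsEmpty {n // v n = c} := ⟨fun n => by
        obtain ⟨a, -, ha⟩ := h2 n.1 ∅
        exact hc ⟨a, (huv _ _ ha).trans n.2⟩⟩
      exact ⟨Equiv.equivOfIsEmpty _ _⟩)
  refine ⟨β, fun a => ?_⟩
  obtain ⟨b, -, hb⟩ := h1 a ∅
  have h4 : v (β a) = u a := hβ a
  obtain ⟨a', -, ha'⟩ := h2 (β a) ∅
  have h5 : β a ∈ v (β a) := ⟨a', ha', ha'⟩
  rw [h4] at h5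
  exact h5

/-- blocks of equal size, at least two -/
structure Blk (bl : ℕ → ℕ) : Prop where
  eqv : ∀ b b', Nonempty ({u // bl u = b} ≃ {u // bl u = b'})
  two : ∀ b, ∃ u v, u ≠ v ∧ bl u = b ∧ bl v = b

variable {bl : ℕ → ℕ}

/-- same double coset -/
def EE (bl : ℕ → ℕ) (g g' : Equiv.Perm ℕ) : Prop :=
  ∃ h k : Equiv.Perm ℕ, Pres bl h ∧ Pres cl k ∧ g' = h * g * k

/-- adjacency of classes -/
def Adj (bl : ℕ → ℕ) (g : Equiv.Perm ℕ) (m n : ℕ) : Prop :=
  m ≠ n ∧ ∃ w w', cl w = m ∧ cl w' = n ∧ bl (g w) = bl (g w')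

/-- good permutations -/
structure WW (bl : ℕ → ℕ) (g : Equiv.Perm ℕ) : Prop where
  head : ∀ b, ∃ w₀, bl (g w₀) = b ∧ ∀ w w', w ≠ w₀ → w' ≠ w₀ → bl (g w) = b → bl (g w') = b →
    cl w = cl w'
  inf : ∀ m n, Adj bl g m n → ∀ F : Finset ℕ, ∃ w₀, bl (g w₀) ∉ F ∧ cl w₀ = m ∧
    ∀ w, w ≠ w₀ → bl (g w) = bl (g w₀) → cl w = n
  loop : ∀ m, ∀ F : Finset ℕ, ∃ w₀, bl (g w₀) ∉ F ∧ ∀ w, bl (g w) = bl (g w₀) → cl w = m

/-- blocks of the same type -/
def RR (bl : ℕ → ℕ) (g g' π : Equiv.Perm ℕ) (b b' : ℕ) : Prop :=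
  ∃ e : {w // bl (g w) = b} ≃ {w // bl (g' w) = b'}, ∀ w, cl (e w) = π (cl w)

theorem blk_eqv (hb : Blk bl) (g g' : Equiv.Perm ℕ) (b b' : ℕ) :
    Nonempty ({w // bl (g w) = b} ≃ {w // bl (g' w) = b'}) := by
  obtain ⟨e⟩ := hb.eqv b b'
  have e1 : {w // bl (g w) = b} ≃ {u // bl u = b} := g.subtypeEquiv fun _ => Iff.rfl
  have e2 : {w // bl (g' w) = b'} ≃ {u // bl u = b'} := g'.subtypeEquiv fun _ => Iff.rfl
  exact ⟨e1.trans (e.trans e2.symm)⟩

theorem rr_of_head (hb : Blk bl) {g g' π : Equiv.Perm ℕ} {w₀ w₀' n : ℕ}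
    (h1 : cl w₀' = π (cl w₀)) (h2 : ∀ w, w ≠ w₀ → bl (g w) = bl (g w₀) → cl w = n)
    (h3 : ∀ w, w ≠ w₀' → bl (g' w) = bl (g' w₀') → cl w = π n) :
    RR bl g g' π (bl (g w₀)) (bl (g' w₀')) := by
  classical
  obtain ⟨e⟩ := blk_eqv hb g g' (bl (g w₀)) (bl (g' w₀'))
  refine ⟨e.trans (Equiv.swap (e ⟨w₀, rfl⟩) ⟨w₀', rfl⟩), fun w => ?_⟩
  by_cases hw : w = ⟨w₀, rfl⟩
  · subst hw
    rw [Equiv.trans_apply, Equiv.swap_apply_left]
    exact h1
  · have hw' : (w : ℕ) ≠ w₀ := fun h => hw (Subtype.ext h)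
    rw [h2 w hw' w.2]
    have h4 : (e.trans (Equiv.swap (e ⟨w₀, rfl⟩) ⟨w₀', rfl⟩)) w ≠ ⟨w₀', rfl⟩ := by
      intro h
      apply hw
      apply (e.trans (Equiv.swap (e ⟨w₀, rfl⟩) ⟨w₀', rfl⟩)).injective
      rw [h, Equiv.trans_apply, Equiv.swap_apply_left]
    exact h3 _ (fun h => h4 (Subtype.ext h)) ((e.trans (Equiv.swap (e ⟨w₀, rfl⟩) ⟨w₀', rfl⟩)) w).2

theorem rr_inf (hb : Blk bl) {g g' π : Equiv.Perm ℕ} (hg : WW bl g) (hg' : WW bl g')
    (hA : ∀ m n, Adj bl g m n → Adj bl g' (π m) (π n)) (b : ℕ) (F : Finset ℕ) :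
    ∃ b', b' ∉ F ∧ RR bl g g' π b b' := by
  obtain ⟨w₀, rfl, h2⟩ := hg.head b
  obtain ⟨w₁, h3, h4⟩ : ∃ w₁, w₁ ≠ w₀ ∧ bl (g w₁) = bl (g w₀) := by
    obtain ⟨u, v, h5, h6, h7⟩ := hb.two (bl (g w₀))
    by_cases h : g.symm u = w₀
    · refine ⟨g.symm v, fun h' => h5 (g.symm.injective (h.trans h'.symm)), ?_⟩
      rw [g.apply_symm_apply]
      exact h7
    · refine ⟨g.symm u, h, ?_⟩
      rw [g.apply_symm_apply]
      exact h6
  have h5 : ∀ w, w ≠ w₀ → bl (g w) = bl (g w₀) → cl w = cl w₁ := fun w h h' => h2 w w₁ h h3 h' h4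
  by_cases hmn : cl w₀ = cl w₁
  · obtain ⟨w₀', h6, h7⟩ := hg'.loop (π (cl w₀)) F
    exact ⟨_, h6, rr_of_head hb (h7 _ rfl) h5 fun w _ hw => by rw [h7 w hw, hmn]⟩
  · obtain ⟨w₀', h6, h7, h8⟩ := hg'.inf (π (cl w₀)) (π (cl w₁))
      (hA _ _ ⟨hmn, w₀, w₁, rfl, rfl, h4.symm⟩) F
    exact ⟨_, h6, rr_of_head hb h7 h5 h8⟩

theorem rr_symm {g g' π : Equiv.Perm ℕ} {b b' : ℕ} (h : RR bl g' g π⁻¹ b' b) :
    RR bl g g' π b b' := by
  obtain ⟨e, he⟩ := h
  refine ⟨e.symm, fun w => ?_⟩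
  have h1 := he (e.symm w)
  rw [e.apply_symm_apply] at h1
  rw [h1]
  exact (π.apply_symm_apply _).symm

theorem ee_of_iso (hb : Blk bl) {g g' π : Equiv.Perm ℕ} (hg : WW bl g) (hg' : WW bl g')
    (hA : ∀ m n, Adj bl g' (π m) (π n) ↔ Adj bl g m n) : EE bl g g' := by
  obtain ⟨β, hβ⟩ := match_rel (RR bl g g' π)
    (rr_inf hb hg hg' fun m n h => (hA m n).2 h)
    (fun b' F => by
      obtain ⟨b, h1, h2⟩ := rr_inf (π := π⁻¹) hb hg' hg (fun m n h => by
        rw [← hA]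
        have e : ∀ m, π (π⁻¹ m) = m := fun m => π.apply_symm_apply m
        rw [e, e]
        exact h) b' F
      exact ⟨b, h1, rr_symm h2⟩)
    (by
      rintro a b a' b' ⟨e1, h1⟩ ⟨e2, h2⟩ ⟨e3, h3⟩
      refine ⟨e1.trans (e2.symm.trans e3), fun w => ?_⟩
      show (cl (e3 (e2.symm (e1 w)))) = _
      rw [h3, ← h2, e2.apply_symm_apply, h1])
  choose e he using hβ
  let k : Equiv.Perm ℕ := (Equiv.sigmaFiberEquiv fun w => bl (g w)).symm.trans
    ((Equiv.sigmaCongr β e).trans (Equiv.sigmaFiberEquiv fun w => bl (g' w)))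
  have hk : ∀ w, k w = (e (bl (g w)) ⟨w, rfl⟩ : ℕ) := fun w => rfl
  have hk1 : ∀ w, bl (g' (k w)) = β (bl (g w)) := fun w => by
    rw [hk]
    exact (e (bl (g w)) ⟨w, rfl⟩).2
  have hk2 : ∀ w, cl (k w) = π (cl w) := fun w => by
    rw [hk]
    exact he _ _
  refine ⟨g' * k * g⁻¹, k⁻¹, fun m n => ?_, ?_, by group⟩
  · show bl (g' (k (g.symm m))) = bl (g' (k (g.symm n))) ↔ bl m = bl n
    rw [hk1, hk1, β.injective.eq_iff, g.apply_symm_apply, g.apply_symm_apply]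
  · refine Pres.inv fun m n => ?_
    rw [hk2, hk2, π.injective.eq_iff]

/-- data of a two-sided translation -/
theorem ee_data (hs : Function.Surjective bl) {g g' : Equiv.Perm ℕ} (h : EE bl g g') :
    ∃ σ π β : Equiv.Perm ℕ, (∀ w, bl (g' (σ w)) = β (bl (g w))) ∧ ∀ w, cl (σ w) = π (cl w) := by
  obtain ⟨h, k, h1, h2, rfl⟩ := h
  obtain ⟨β, hβ⟩ := h1.perm hs
  obtain ⟨π, hπ⟩ := h2.inv.perm surj_cl
  refine ⟨k⁻¹, π, β, fun w => ?_, hπ⟩
  show bl (h (g (k (k.symm w)))) = _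
  rw [k.apply_symm_apply, hβ]

theorem EE.symm {g g' : Equiv.Perm ℕ} (h : EE bl g g') : EE bl g' g := by
  obtain ⟨h, k, h1, h2, rfl⟩ := h
  exact ⟨h⁻¹, k⁻¹, h1.inv, h2.inv, by group⟩

section data

variable {g g' σ π β : Equiv.Perm ℕ} (h1 : ∀ w, bl (g' (σ w)) = β (bl (g w)))
  (h2 : ∀ w, cl (σ w) = π (cl w))

include h1 h2

theorem adj_data (m n : ℕ) : Adj bl g' (π m) (π n) ↔ Adj bl g m n := by
  constructor
  · rintro ⟨h3, w, w', h4, h5, h6⟩
    obtain ⟨w, rfl⟩ := σ.surjective w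
    obtain ⟨w', rfl⟩ := σ.surjective w'
    rw [h2] at h4 h5
    rw [h1, h1] at h6
    exact ⟨fun h => h3 (by rw [h]), w, w', π.injective h4, π.injective h5, β.injective h6⟩
  · rintro ⟨h3, w, w', rfl, rfl, h6⟩
    exact ⟨fun h => h3 (π.injective h), σ w, σ w', h2 w, h2 w', by rw [h1, h1, h6]⟩

theorem ww_data (hg : WW bl g) : WW bl g' := by
  classical
  refine ⟨fun b => ?_, fun m n hmn F => ?_, fun m F => ?_⟩
  · obtain ⟨b, rfl⟩ := β.surjective b
    obtain ⟨w₀, h3, h4⟩ := hg.head b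
    refine ⟨σ w₀, by rw [h1, h3], fun w w' h5 h6 h7 h8 => ?_⟩
    obtain ⟨w, rfl⟩ := σ.surjective w
    obtain ⟨w', rfl⟩ := σ.surjective w'
    rw [h1] at h7 h8
    rw [h2, h2, h4 w w' (fun h => h5 (by rw [h])) (fun h => h6 (by rw [h])) (β.injective h7)
      (β.injective h8)]
  · obtain ⟨m, rfl⟩ := π.surjective m
    obtain ⟨n, rfl⟩ := π.surjective n
    obtain ⟨w₀, h3, h4, h5⟩ := hg.inf m n ((adj_data h1 h2 m n).1 hmn) (F.image β.symm)
    refine ⟨σ w₀, ?_, by rw [h2, h4], fun w h6 h7 => ?_⟩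
    · rw [h1]
      intro h
      exact h3 (Finset.mem_image.2 ⟨_, h, β.symm_apply_apply _⟩)
    · obtain ⟨w, rfl⟩ := σ.surjective w
      rw [h1, h1] at h7
      rw [h2, h5 w (fun h => h6 (by rw [h])) (β.injective h7)]
  · obtain ⟨m, rfl⟩ := π.surjective m
    obtain ⟨w₀, h3, h4⟩ := hg.loop m (F.image β.symm)
    refine ⟨σ w₀, ?_, fun w h6 => ?_⟩
    · rw [h1]
      intro h
      exact h3 (Finset.mem_image.2 ⟨_, h, β.symm_apply_apply _⟩)
    · obtain ⟨w, rfl⟩ := σ.surjective w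
      rw [h1, h1] at h6
      rw [h2, h4 w (β.injective h6)]

end data

/-- the Borel structure of the symmetric group -/
@[reducible] def mP : MeasurableSpace (Equiv.Perm ℕ) :=
  MeasurableSpace.comap (fun g : Equiv.Perm ℕ => (g : ℕ → ℕ)) inferInstance

/-- the decoded graph -/
noncomputable def dec (bl : ℕ → ℕ) (g : Equiv.Perm ℕ) : BinStr := fun m n =>
  open Classical in decide (Adj bl g m n)

theorem dec_iff (g : Equiv.Perm ℕ) (m n : ℕ) : dec bl g m n = true ↔ Adj bl g m n := by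
  unfold dec
  exact @decide_eq_true_iff _ (Classical.propDecidable _)

section meas

attribute [local instance] mP

theorem meas_val (w : ℕ) : Measurable (fun g : Equiv.Perm ℕ => g w) := by
  have h : Measurable (fun g : Equiv.Perm ℕ => (g : ℕ → ℕ)) := comap_measurable _
  exact (measurable_pi_apply w).comp h

theorem bp_pred (p : ℕ → Prop) (w : ℕ) : BP (fun g : Equiv.Perm ℕ => p (g w)) :=
  meas_val w (MeasurableSet.of_discrete (s := {n | p n}))

theorem bp_pred2 (w w' : ℕ) : BP (fun g : Equiv.Perm ℕ => bl (g w) = bl (g w')) := by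
  have key : BP (fun g : Equiv.Perm ℕ => ∃ b, bl (g w) = b ∧ bl (g w') = b) :=
    BP.ex fun b => (bp_pred (fun n => bl n = b) w).and (bp_pred (fun n => bl n = b) w')
  exact key.congr fun g => ⟨fun ⟨b, h1, h2⟩ => h1.trans h2.symm, fun h => ⟨_, h, rfl⟩⟩

theorem bp_adj (m n : ℕ) : BP (fun g : Equiv.Perm ℕ => Adj bl g m n) :=
  (BP.const _).and <| BP.ex fun w => BP.ex fun w' => (BP.const _).and <| (BP.const _).and <|
    bp_pred2 w w'

theorem bp_WW : BP (WW bl) := by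
  have key : BP (fun g : Equiv.Perm ℕ =>
      (∀ b, ∃ w₀, bl (g w₀) = b ∧ ∀ w w', w ≠ w₀ → w' ≠ w₀ → bl (g w) = b → bl (g w') = b →
        cl w = cl w') ∧
      (∀ m n, Adj bl g m n → ∀ F : Finset ℕ, ∃ w₀, bl (g w₀) ∉ F ∧ cl w₀ = m ∧
        ∀ w, w ≠ w₀ → bl (g w) = bl (g w₀) → cl w = n) ∧
      (∀ m, ∀ F : Finset ℕ, ∃ w₀, bl (g w₀) ∉ F ∧ ∀ w, bl (g w) = bl (g w₀) → cl w = m)) :=
    (BP.all fun b => BP.ex fun w₀ => (bp_pred (fun n => bl n = b) w₀).and <|
      BP.all fun w => BP.all fun w' => (BP.const _).imp <| (BP.const _).imp <|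
      (bp_pred (fun n => bl n = b) w).imp <| (bp_pred (fun n => bl n = b) w').imp
        (BP.const _)).and <|
    (BP.all fun m => BP.all fun n => (bp_adj m n).imp <| BP.all fun F : Finset ℕ =>
      BP.ex fun w₀ => (bp_pred (fun n => bl n ∉ F) w₀).and <| (BP.const _).and <|
      BP.all fun w => (BP.const _).imp <| (bp_pred2 w w₀).imp (BP.const _)).and <|
    BP.all fun m => BP.all fun F : Finset ℕ => BP.ex fun w₀ =>
      (bp_pred (fun n => bl n ∉ F) w₀).and <| BP.all fun w => (bp_pred2 w w₀).imp (BP.const _)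
  exact key.congr fun g => ⟨fun ⟨a1, a2, a3⟩ => ⟨a1, a2, a3⟩, fun ⟨a1, a2, a3⟩ => ⟨a1, a2, a3⟩⟩

theorem meas_dec : Measurable (dec bl) := by
  refine measurable_pi_iff.2 fun m => measurable_pi_iff.2 fun n => ?_
  refine measurable_to_bool ?_
  refine (congrArg MeasurableSet (Set.ext fun g => ?_)).mp (bp_adj (bl := bl) m n)
  show Adj bl g m n ↔ dec bl g m n = true
  exact (dec_iff g m n).symm

end meas

/-- existence -/
theorem dec_ex (hb : Blk bl) (hs : Function.Surjective bl) (x : BinStr) (hx : IsGraph x) :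
    ∃ g : Equiv.Perm ℕ, WW bl g ∧ BIso (dec bl g) x := by
  classical
  obtain ⟨hd, hhd⟩ := hs.hasRightInverse
  let m₀ : ℕ → ℕ := fun b => b.unpair.1
  let n₀ : ℕ → ℕ := fun b => b.unpair.2.unpair.1
  let p : ℕ → ℕ := fun u => if x (m₀ (bl u)) (n₀ (bl u)) = true ∧ u ≠ hd (bl u)
    then n₀ (bl u) else m₀ (bl u)
  have hcode : ∀ m n i, m₀ (Nat.pair m (Nat.pair n i)) = m ∧ n₀ (Nat.pair m (Nat.pair n i)) = n := by
    intro m n i
    refine ⟨?_, ?_⟩
    · show (Nat.unpair _).1 = m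
      rw [Nat.unpair_pair]
    · show (Nat.unpair (Nat.unpair _).2).1 = n
      rw [Nat.unpair_pair, Nat.unpair_pair]
  have hfresh : ∀ m n (F : Finset ℕ), ∃ i, Nat.pair m (Nat.pair n i) ∉ F := by
    intro m n F
    have hinj : Function.Injective fun i => Nat.pair m (Nat.pair n i) := by
      intro i j h
      have h1 := (Nat.pair_eq_pair.1 h).2
      exact (Nat.pair_eq_pair.1 h1).2
    obtain ⟨_, ⟨i, rfl⟩, hi⟩ := (Set.infinite_range_of_injective hinj).exists_notMem_finset F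
    exact ⟨i, hi⟩
  have hp_hd : ∀ b, p (hd b) = m₀ b := by
    intro b
    show (if x (m₀ (bl (hd b))) (n₀ (bl (hd b))) = true ∧ hd b ≠ hd (bl (hd b)) then _ else _) = _
    rw [if_neg (fun h => h.2 (by rw [hhd])), hhd]
  have hp1 : ∀ u, x (m₀ (bl u)) (n₀ (bl u)) = true → u ≠ hd (bl u) → p u = n₀ (bl u) :=
    fun u h h' => if_pos ⟨h, h'⟩
  have hp2 : ∀ u, ¬ x (m₀ (bl u)) (n₀ (bl u)) = true → p u = m₀ (bl u) :=
    fun u h => if_neg fun h' => h h'.1
  obtain ⟨g, hg⟩ := Pool.Agent.H579R3.SV.glue cl p (fun m => by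
    refine eqv_of_inf (s := {n | cl n = m}) (t := {n | p n = m}) ?_ ?_
    · have hinj : Function.Injective fun i => Nat.pair m i := fun i j h =>
        (Nat.pair_eq_pair.1 h).2
      refine (Set.infinite_range_of_injective hinj).mono ?_
      rintro _ ⟨i, rfl⟩
      show (Nat.unpair (Nat.pair m i)).1 = m
      rw [Nat.unpair_pair]
    · have hinj : Function.Injective fun i => hd (Nat.pair m (Nat.pair m i)) := by
        intro i j h
        have h0 := hhd.injective h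
        have h1 := (Nat.pair_eq_pair.1 h0).2
        exact (Nat.pair_eq_pair.1 h1).2
      refine (Set.infinite_range_of_injective hinj).mono ?_
      rintro _ ⟨i, rfl⟩
      show p _ = m
      rw [hp_hd]
      exact (hcode m m i).1)
  have hA : ∀ m n, Adj bl g m n ↔ x m n = true := by
    intro m n
    constructor
    · rintro ⟨h1, w, w', rfl, rfl, h4⟩
      rw [← hg, ← hg] at h1 ⊢
      by_cases hx1 : x (m₀ (bl (g w))) (n₀ (bl (g w))) = true
      · by_cases hw : g w = hd (bl (g w))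
        · by_cases hw' : g w' = hd (bl (g w'))
          · exact absurd (by rw [hw, hw', h4]) h1
          · have e2 := hp1 (g w') (by rw [← h4]; exact hx1) hw'
            have e1 : p (g w) = m₀ (bl (g w)) := by
              conv_lhs => rw [hw]
              exact hp_hd _
            rw [e1, e2, ← h4]
            exact hx1
        · have e1 := hp1 (g w) hx1 hw
          by_cases hw' : g w' = hd (bl (g w'))
          · have e2 : p (g w') = m₀ (bl (g w')) := by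
              conv_lhs => rw [hw']
              exact hp_hd _
            rw [e1, e2, ← h4]
            exact hx.symm _ _ hx1
          · have e2 := hp1 (g w') (by rw [← h4]; exact hx1) hw'
            exact absurd (by rw [e1, e2, h4]) h1
      · have e1 := hp2 (g w) hx1
        have e2 := hp2 (g w') (by rw [← h4]; exact hx1)
        exact absurd (by rw [e1, e2, h4]) h1
    · intro h
      have hmn : m ≠ n := by
        rintro rfl
        rw [hx.irrefl] at h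
        exact absurd h (by decide)
      obtain ⟨u, v, h5, h6, h7⟩ := hb.two (Nat.pair m (Nat.pair n 0))
      obtain ⟨v, h8, h9⟩ : ∃ v, v ≠ hd (Nat.pair m (Nat.pair n 0)) ∧
          bl v = Nat.pair m (Nat.pair n 0) := by
        by_cases hu : u = hd (Nat.pair m (Nat.pair n 0))
        · exact ⟨v, fun h => h5 (hu.trans h.symm), h7⟩
        · exact ⟨u, hu, h6⟩
      refine ⟨hmn, g.symm (hd (Nat.pair m (Nat.pair n 0))), g.symm v, ?_, ?_, ?_⟩
      · rw [← hg, g.apply_symm_apply, hp_hd]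
        exact (hcode m n 0).1
      · rw [← hg, g.apply_symm_apply, hp1 v ?_ ?_, h9]
        · exact (hcode m n 0).2
        · rw [h9, (hcode m n 0).1, (hcode m n 0).2]
          exact h
        · rw [h9]
          exact h8
      · rw [g.apply_symm_apply, g.apply_symm_apply, hhd, h9]
  refine ⟨g, ⟨fun b => ?_, fun m n hmn F => ?_, fun m F => ?_⟩, ⟨1, fun m n => ?_⟩⟩
  · refine ⟨g.symm (hd b), by rw [g.apply_symm_apply, hhd], fun w w' h1 h2 h3 h4 => ?_⟩
    have h5 : g w ≠ hd (bl (g w)) := fun h => h1 (by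
      rw [h3] at h
      rw [← h, g.symm_apply_apply])
    have h6 : g w' ≠ hd (bl (g w')) := fun h => h2 (by
      rw [h4] at h
      rw [← h, g.symm_apply_apply])
    rw [← hg, ← hg]
    by_cases hx1 : x (m₀ b) (n₀ b) = true
    · rw [hp1 _ (by rw [h3]; exact hx1) h5, hp1 _ (by rw [h4]; exact hx1) h6, h3, h4]
    · rw [hp2 _ (by rw [h3]; exact hx1), hp2 _ (by rw [h4]; exact hx1), h3, h4]
  · have hx1 := (hA m n).1 hmn
    obtain ⟨i, hi⟩ := hfresh m n F
    have e0 : bl (hd (Nat.pair m (Nat.pair n i))) = Nat.pair m (Nat.pair n i) := hhd _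
    refine ⟨g.symm (hd (Nat.pair m (Nat.pair n i))), ?_, ?_, fun w h1 h2 => ?_⟩
    · rw [g.apply_symm_apply, e0]
      exact hi
    · rw [← hg, g.apply_symm_apply, hp_hd]
      exact (hcode m n i).1
    · rw [g.apply_symm_apply, e0] at h2
      rw [← hg, hp1, h2, (hcode m n i).2]
      · rw [h2, (hcode m n i).1, (hcode m n i).2]
        exact hx1
      · rw [h2]
        intro h
        exact h1 (by rw [← h, g.symm_apply_apply])
  · obtain ⟨i, hi⟩ := hfresh m m F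
    have e0 : bl (hd (Nat.pair m (Nat.pair m i))) = Nat.pair m (Nat.pair m i) := hhd _
    refine ⟨g.symm (hd (Nat.pair m (Nat.pair m i))), ?_, fun w h2 => ?_⟩
    · rw [g.apply_symm_apply, e0]
      exact hi
    · rw [g.apply_symm_apply, e0] at h2
      rw [← hg, hp2, h2, (hcode m m i).1]
      rw [h2, (hcode m m i).1, (hcode m m i).2, hx.irrefl]
      decide
  · show x m n = dec bl g m n
    rw [Bool.eq_iff_iff, dec_iff, hA]

section faith

attribute [local instance] mP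

/-- **Faithful completeness** of the two-sided translations. -/
theorem faithful (hb : Blk bl) (hs : Function.Surjective bl) :
    Faithful (EE bl) (fun _ : Equiv.Perm ℕ => True) := by
  have h0 : Faithful BIso K3 := Pool.Agent.W889.SD.target_K3.faithful
  refine faithful_interp h0 (W := WW bl) (δ := dec bl) (fun _ _ h => h.symm) bp_WW meas_dec
    (fun g g' h hg => ?_) (fun g g' hg hg' => ⟨fun h => ?_, fun h => ?_⟩)
    (fun x hx => dec_ex hb hs x hx.1) (fun _ _ => trivial)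
  · obtain ⟨σ, π, β, h1, h2⟩ := ee_data hs h
    exact ww_data h1 h2 hg
  · obtain ⟨σ, π, β, h1, h2⟩ := ee_data hs h
    refine ⟨π, fun m n => ?_⟩
    rw [Bool.eq_iff_iff, dec_iff, dec_iff]
    exact adj_data h1 h2 m n
  · obtain ⟨π, hπ⟩ := h
    refine ee_of_iso (π := π) hb hg hg' fun m n => ?_
    rw [← dec_iff, ← dec_iff, hπ]

end faith

end Pool.Agent.Q216.TW
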