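import Pool.Agent.Helper750.Orbit
import Pool.Agent.W889.VC.Transfer

set_option autoImplicit false

/-! Borel selection of isomorphisms from a fixed countable structure. -/

namespace Pool.Agent.Q216.TW

open Set MeasureTheory
open Pool.Agent.Helper750.Eff Pool.Agent.Helper750.Orbit
open Pool.Agent.W889.VC (Str Iso)

/-- A Borel transversal for a continuous map whose saturations of basic open sets are Borel. -/
theorem exists_transversal {Y : Type} [TopologicalSpace Y] [T2Space Y] {P : Set (ℕ → ℕ)}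
    (hP : IsClosed P) {Φ : (ℕ → ℕ) → Y} (hΦ : Continuous Φ)
    (hsat : ∀ s : List ℕ, MeasurableSet
      {x : ℕ → ℕ | x ∈ P ∧ ∃ x' ∈ P, pfx x' s.length = s ∧ Φ x' = Φ x}) :
    ∃ T : Set (ℕ → ℕ), T ⊆ P ∧ MeasurableSet T ∧ InjOn Φ T ∧ Φ '' P = Φ '' T := by
  let Sat : List ℕ → Set (ℕ → ℕ) := fun s =>
    {x : ℕ → ℕ | x ∈ P ∧ ∃ x' ∈ P, pfx x' s.length = s ∧ Φ x' = Φ x}
  let T : Set (ℕ → ℕ) := P ∩ ⋂ s : List ℕ, ⋂ v : ℕ,
    ({x | pfx x s.length = s} ∩ {x | v < x s.length} ∩ Sat (s ++ [v]))ᶜ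
  have hT : MeasurableSet T := by
    refine hP.measurableSet.inter (MeasurableSet.iInter fun s => MeasurableSet.iInter fun v => ?_)
    refine (((isOpen_pfx' s).measurableSet.inter ?_).inter (hsat _)).compl
    exact (isOpen_discrete {m : ℕ | v < m}).measurableSet.preimage (measurable_pi_apply s.length)
  have hinj : InjOn Φ T := by
    intro x hx y hy hxy
    by_contra hne
    have hex : ∃ n, x n ≠ y n := by
      by_contra hcon
      push Not at hcon
      exact hne (funext hcon)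
    classical
    have hmin : ∀ m < Nat.find hex, x m = y m := fun m hm => not_not.mp (Nat.find_min hex hm)
    have hspec := Nat.find_spec hex
    set n := Nat.find hex with hn
    have hpf : pfx x n = pfx y n := by
      unfold pfx
      exact List.map_congr_left fun i hi => hmin i (List.mem_range.mp hi)
    have key : ∀ x y : ℕ → ℕ, x ∈ T → y ∈ T → Φ x = Φ y → pfx x n = pfx y n → ¬ y n < x n := by
      intro x y hx hy hxy hpf hlt
      have h1 := hx.2
      rw [mem_iInter] at h1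
      have h2 := h1 (pfx x n)
      rw [mem_iInter] at h2
      apply h2 (y n)
      refine ⟨⟨by rw [mem_ofPred_eq, pfx_length], by rw [mem_ofPred_eq, pfx_length]; exact hlt⟩,
        hx.1, y, hy.1, ?_, hxy.symm⟩
      rw [List.length_append, pfx_length, List.length_singleton, pfx_succ, hpf]
    rcases lt_trichotomy (x n) (y n) with h | h | h
    · exact key y x hy hx hxy.symm hpf.symm h
    · exact hspec h
    · exact key x y hx hy hxy hpf h
  refine ⟨T, inter_subset_left, hT, hinj, ?_⟩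
  apply Subset.antisymm
  · rintro _ ⟨x, hx, rfl⟩
    have hC : IsClosed (P ∩ Φ ⁻¹' {Φ x}) := hP.inter (isClosed_singleton.preimage hΦ)
    obtain ⟨y, hy, hl⟩ := exists_leftmost hC ⟨x, hx, rfl⟩
    refine ⟨y, ⟨hy.1, ?_⟩, hy.2⟩
    rw [mem_iInter]
    intro s
    rw [mem_iInter]
    rintro v ⟨⟨hs, hv⟩, _, z, hz, hzs, hzΦ⟩
    rw [mem_ofPred_eq] at hs hv
    refine hl s.length v hv ⟨z, ⟨hz, ?_⟩, ?_⟩
    · rw [mem_preimage, mem_singleton_iff, hzΦ]
      exact hy.2
    · rw [hs]
      rw [List.length_append, List.length_singleton] at hzs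
      exact hzs
  · exact image_mono inter_subset_left

/-- codes of permutations -/
def PC : Set (ℕ → ℕ) := {x | (∀ n, evn x (odd x n) = n) ∧ (∀ n, odd x (evn x n) = n)}

theorem isClosed_PC : IsClosed PC := by
  have key : ∀ {F G : (ℕ → ℕ) → (ℕ → ℕ)}, Continuous F → Continuous G →
      IsClosed {x : ℕ → ℕ | ∀ n, F x (G x n) = n} := by
    intro F G hF hG
    have : {x : ℕ → ℕ | ∀ n, F x (G x n) = n} = ⋂ n, {x | F x (G x n) = n} := by
      ext x
      simp
    rw [this]
    refine isClosed_iInter fun n => ?_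
    exact isClosed_eq (continuous_app hF ((continuous_apply n).comp hG)) continuous_const
  have h := (key continuous_evn continuous_odd).inter (key continuous_odd continuous_evn)
  exact h

/-- the permutation with a given code -/
def prm (x : ℕ → ℕ) (h : x ∈ PC) : Equiv.Perm ℕ := ⟨evn x, odd x, h.2, h.1⟩

theorem code_mem (σ : Equiv.Perm ℕ) : join ⇑σ ⇑σ.symm ∈ PC := by
  refine ⟨fun n => ?_, fun n => ?_⟩
  · rw [evn_join, odd_join]
    exact σ.apply_symm_apply n
  · rw [evn_join, odd_join]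
    exact σ.symm_apply_apply n

variable {a : ℕ → ℕ}

/-- the structure `x₀` moved by the permutation with code `x` -/
def act (x₀ : Str a) (x : ℕ → ℕ) : Str a := fun i v => x₀ i (odd x ∘ v)

theorem continuous_act (x₀ : Str a) : Continuous (act x₀) := by
  refine continuous_pi fun i => continuous_pi fun v => ?_
  have h1 : Continuous (fun x : ℕ → ℕ => (odd x ∘ v : Fin (a i) → ℕ)) :=
    continuous_pi fun j => (continuous_apply (v j)).comp continuous_odd
  have h2 : Continuous (x₀ i) := continuous_of_discreteTopology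
  exact h2.comp h1

theorem sat_eq (x₀ : Str a) (s : List ℕ) :
    {x : ℕ → ℕ | x ∈ PC ∧ ∃ x' ∈ PC, pfx x' s.length = s ∧ act x₀ x' = act x₀ x} =
    PC ∩ ⋃ h : {h : Equiv.Perm ℕ // ∀ i (v : Fin (a i) → ℕ), x₀ i (⇑h ∘ v) = x₀ i v},
      {y | pfx (join (evn y ∘ ⇑h.1) (⇑h.1.symm ∘ odd y)) s.length = s} := by
  ext x
  constructor
  · rintro ⟨hx, x', hx', h1, h2⟩
    refine ⟨hx, mem_iUnion.2 ⟨⟨(prm x' hx').trans (prm x hx).symm, fun i v => ?_⟩, ?_⟩⟩
    · have h3 := congrFun (congrFun h2 i) (evn x' ∘ v)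
      have e1 : (odd x' ∘ evn x' ∘ v : Fin (a i) → ℕ) = v := by
        funext j
        exact hx'.2 (v j)
      have h4 : x₀ i (odd x' ∘ evn x' ∘ v) = x₀ i (odd x ∘ evn x' ∘ v) := h3
      rw [e1] at h4
      exact h4.symm
    · have e1 : (evn x ∘ ⇑((prm x' hx').trans (prm x hx).symm)) = evn x' := by
        funext n
        exact hx.1 (evn x' n)
      have e2 : (⇑((prm x' hx').trans (prm x hx).symm).symm ∘ odd x) = odd x' := by
        funext n
        show odd x' (evn x (odd x n)) = odd x' n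
        rw [hx.1]
      show pfx (join (evn x ∘ ⇑((prm x' hx').trans (prm x hx).symm))
        (⇑((prm x' hx').trans (prm x hx).symm).symm ∘ odd x)) s.length = s
      rw [e1, e2, join_evn_odd]
      exact h1
  · rintro ⟨hx, hx2⟩
    obtain ⟨⟨h, hh⟩, hx3⟩ := mem_iUnion.1 hx2
    refine ⟨hx, join (evn x ∘ ⇑h) (⇑h.symm ∘ odd x), ⟨fun n => ?_, fun n => ?_⟩, hx3, ?_⟩
    · rw [evn_join, odd_join]
      show evn x (h (h.symm (odd x n))) = n
      rw [h.apply_symm_apply, hx.1]
    · rw [evn_join, odd_join]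
      show h.symm (odd x (evn x (h n))) = n
      rw [hx.2, h.symm_apply_apply]
    · funext i v
      show x₀ i (odd (join (evn x ∘ ⇑h) (⇑h.symm ∘ odd x)) ∘ v) = x₀ i (odd x ∘ v)
      rw [odd_join, ← hh i]
      congr 1
      funext j
      show h (h.symm (odd x (v j))) = odd x (v j)
      rw [h.apply_symm_apply]

theorem sat_meas (x₀ : Str a) (s : List ℕ) : MeasurableSet
    {x : ℕ → ℕ | x ∈ PC ∧ ∃ x' ∈ PC, pfx x' s.length = s ∧ act x₀ x' = act x₀ x} := by
  rw [sat_eq]
  refine isClosed_PC.measurableSet.inter (IsOpen.measurableSet (isOpen_iUnion fun h => ?_))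
  refine (isOpen_pfx' s).preimage (continuous_join ?_ ?_)
  · exact continuous_pi fun n => (continuous_apply (h.1 n)).comp continuous_evn
  · refine continuous_pi fun n => ?_
    have h1 : Continuous (⇑h.1.symm : ℕ → ℕ) := continuous_of_discreteTopology
    exact h1.comp ((continuous_apply n).comp continuous_odd)

theorem act_iso (x₀ : Str a) {x : ℕ → ℕ} (hx : x ∈ PC) : Iso x₀ (act x₀ x) := by
  refine ⟨prm x hx, fun i v => ?_⟩
  show x₀ i (odd x ∘ evn x ∘ v) = x₀ i v
  congr 1
  funext j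
  exact hx.2 (v j)

theorem iso_act (x₀ : Str a) {z : Str a} (h : Iso x₀ z) : z ∈ act x₀ '' PC := by
  obtain ⟨σ, hσ⟩ := h
  refine ⟨join ⇑σ ⇑σ.symm, code_mem σ, ?_⟩
  funext i v
  show x₀ i (odd (join ⇑σ ⇑σ.symm) ∘ v) = z i v
  rw [odd_join, ← hσ]
  congr 1
  funext j
  exact σ.apply_symm_apply (v j)

/-- **Borel selection of isomorphisms.** -/
theorem selector (x₀ : Str a) : MeasurableSet {z : Str a | Iso x₀ z} ∧
    ∃ ψ : Str a → (ℕ → ℕ), Measurable ψ ∧ ∀ z, Iso x₀ z → ψ z ∈ PC ∧ act x₀ (ψ z) = z := by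
  have hb : BorelSpace (Str a) := by
    have b0 : ∀ i, BorelSpace ((Fin (a i) → ℕ) → Bool) := fun i => Pi.borelSpace
    exact Pi.borelSpace
  have hm : {z : Str a | Iso x₀ z} = act x₀ '' PC := by
    ext z
    exact ⟨fun h => iso_act x₀ h, by rintro ⟨x, hx, rfl⟩; exact act_iso x₀ hx⟩
  refine ⟨by rw [hm]; exact measurableSet_image isClosed_PC (continuous_act x₀) (sat_meas x₀), ?_⟩
  obtain ⟨T, h1, h2, h3, h4⟩ := exists_transversal isClosed_PC (continuous_act x₀) (sat_meas x₀)
  have h5 := (continuous_act x₀).continuousOn.measurableEmbedding h2 h3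
  obtain ⟨ψ, h6, h7⟩ := h5.exists_measurable_extend (g := fun t : T => (t : ℕ → ℕ))
    measurable_subtype_coe fun _ => ⟨fun _ => 0⟩
  refine ⟨ψ, h6, fun z hz => ?_⟩
  have h8 := iso_act x₀ hz
  rw [h4] at h8
  obtain ⟨x, hx, rfl⟩ := h8
  have h9 : ψ (act x₀ x) = x := congrFun h7 ⟨x, hx⟩
  rw [h9]
  exact ⟨h1 hx, rfl⟩

end Pool.Agent.Q216.TW
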