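import Pool.Agent.Q216.TW.Sel

set_option autoImplicit false

/-! Two-sided translations on the symmetric group and pairs of structures. -/

namespace Pool.Agent.Q216.TW

open Set MeasureTheory
open Pool.Agent.Helper750.Eff Pool.Agent.Helper750.Orbit
open Pool.Agent.W889.VC (Str Iso VCof Dich cont_of_meas)

variable {a b : ℕ → ℕ}

/-- `σ` is an automorphism of `x` -/
def InAut (x : Str a) (σ : Equiv.Perm ℕ) : Prop := ∀ i (v : Fin (a i) → ℕ), x i (⇑σ ∘ v) = x i v

theorem InAut.inv {x : Str a} {σ : Equiv.Perm ℕ} (h : InAut x σ) : InAut x σ⁻¹ := by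
  intro i v
  rw [← h i]
  congr 1
  funext j
  exact σ.apply_symm_apply (v j)

theorem InAut.mul {x : Str a} {σ τ : Equiv.Perm ℕ} (h : InAut x σ) (h' : InAut x τ) :
    InAut x (σ * τ) := by
  intro i v
  have e : (⇑(σ * τ) ∘ v : Fin (a i) → ℕ) = ⇑σ ∘ (⇑τ ∘ v) := rfl
  rw [e, h, h']

/-- the bijection of indices -/
def ee : ℕ ≃ ℕ ⊕ ℕ := Equiv.natSumNatEquivNat.symm

/-- arities of the combined language -/
def cc (a b : ℕ → ℕ) : ℕ → ℕ := fun n => Sum.elim a b (ee n)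

/-- values -/
abbrev PI (a b : ℕ → ℕ) (s : ℕ ⊕ ℕ) : Type := (Fin (Sum.elim a b s) → ℕ) → Bool

/-- reindexing -/
def HC (a b : ℕ → ℕ) : Str (cc a b) ≃ₜ ((s : ℕ ⊕ ℕ) → PI a b s) :=
  Homeomorph.piCongrLeft (Y := PI a b) ee

/-- first structure -/
def left (z : Str (cc a b)) : Str a := fun i => HC a b z (Sum.inl i)

/-- second structure -/
def right (z : Str (cc a b)) : Str b := fun i => HC a b z (Sum.inr i)

/-- pairing -/
def pick (x : Str a) (y : Str b) : (s : ℕ ⊕ ℕ) → PI a b s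
  | .inl i => x i
  | .inr i => y i

/-- the combined structure -/
def mk2 (x : Str a) (y : Str b) : Str (cc a b) := (HC a b).symm (pick x y)

@[simp] theorem left_mk2 (x : Str a) (y : Str b) : left (mk2 x y) = x := by
  funext i
  unfold left mk2
  rw [Homeomorph.apply_symm_apply]
  rfl

@[simp] theorem right_mk2 (x : Str a) (y : Str b) : right (mk2 x y) = y := by
  funext i
  unfold right mk2
  rw [Homeomorph.apply_symm_apply]
  rfl

theorem HC_apply (z : Str (cc a b)) (n : ℕ) : HC a b z (ee n) = z n :=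
  Equiv.piCongrLeft_apply_apply (PI a b) ee z n

theorem iso_iff (z z' : Str (cc a b)) : Iso z z' ↔ ∃ σ : Equiv.Perm ℕ,
    (∀ i v, left z' i (⇑σ ∘ v) = left z i v) ∧ ∀ i v, right z' i (⇑σ ∘ v) = right z i v := by
  have h0 : ∀ σ : Equiv.Perm ℕ, (∀ (i : ℕ) (v : Fin (cc a b i) → ℕ), z' i (⇑σ ∘ v) = z i v) ↔
      ∀ (s : ℕ ⊕ ℕ) (v : Fin (Sum.elim a b s) → ℕ), HC a b z' s (⇑σ ∘ v) = HC a b z s v := by
    intro σ
    constructor
    · intro h s
      obtain ⟨n, rfl⟩ := ee.surjective s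
      intro v
      rw [HC_apply, HC_apply]
      exact h n v
    · intro h n v
      have := h (ee n) v
      rw [HC_apply, HC_apply] at this
      exact this
  constructor
  · rintro ⟨σ, hσ⟩
    have := (h0 σ).1 hσ
    exact ⟨σ, fun i v => this (Sum.inl i) v, fun i v => this (Sum.inr i) v⟩
  · rintro ⟨σ, h1, h2⟩
    refine ⟨σ, (h0 σ).2 ?_⟩
    rintro (i | i) v
    · exact h1 i v
    · exact h2 i v

/-- the same double coset -/
def TS (x : Str a) (y : Str b) (g g' : Equiv.Perm ℕ) : Prop :=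
  ∃ h k : Equiv.Perm ℕ, InAut x h ∧ InAut y k ∧ g' = h * g * k

/-- the pair of structures of a permutation -/
def CG (x : Str a) (y : Str b) (g : Equiv.Perm ℕ) : Str (cc a b) :=
  mk2 x (fun i v => y i (⇑g.symm ∘ v))

theorem CG_iso (x : Str a) (y : Str b) (g g' : Equiv.Perm ℕ) :
    Iso (CG x y g) (CG x y g') ↔ TS x y g g' := by
  rw [iso_iff]
  unfold CG
  simp only [left_mk2, right_mk2]
  constructor
  · rintro ⟨ρ, h1, h2⟩
    refine ⟨ρ, g⁻¹ * ρ⁻¹ * g', h1, fun i v => ?_, by group⟩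
    have h3 := h2 i (⇑(ρ⁻¹ * g') ∘ v)
    have e1 : (⇑g.symm ∘ ⇑(ρ⁻¹ * g') ∘ v : Fin (b i) → ℕ) = ⇑(g⁻¹ * ρ⁻¹ * g') ∘ v := rfl
    have e2 : (⇑g'.symm ∘ ⇑ρ ∘ ⇑(ρ⁻¹ * g') ∘ v : Fin (b i) → ℕ) = v := by
      funext j
      show g'.symm (ρ (ρ.symm (g' (v j)))) = v j
      rw [ρ.apply_symm_apply, g'.symm_apply_apply]
    rw [e1, e2] at h3
    exact h3.symm
  · rintro ⟨h, k, h1, h2, rfl⟩
    refine ⟨h, h1, fun i v => ?_⟩
    have e : (⇑(h * g * k).symm ∘ ⇑h ∘ v : Fin (b i) → ℕ) = ⇑k⁻¹ ∘ (⇑g.symm ∘ v) := by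
      funext j
      show k.symm (g.symm (h.symm (h (v j)))) = k.symm (g.symm (v j))
      rw [h.symm_apply_apply]
    rw [e, h2.inv]

/-- The dichotomy for two-sided translations by the automorphism groups of `x` and `y` follows from
the dichotomy for the pairs of structures isomorphic to `x` and `y`. -/
theorem transfer (x : Str a) (y : Str b)
    (hV : VCof True (Iso (a := cc a b)) (fun z => Iso x (left z) ∧ Iso y (right z)))
    (B : Set (Equiv.Perm ℕ))
    (hB : MeasurableSet[MeasurableSpace.comap (fun g : Equiv.Perm ℕ => (g : ℕ → ℕ)) inferInstance] B)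
    (hi : ∀ g g', TS x y g g' → g ∈ B → g' ∈ B) :
    (∃ f : ℕ → Equiv.Perm ℕ, ∀ g ∈ B, ∃ n, TS x y (f n) g) ∨
    (∃ c : (ℕ → Bool) → Equiv.Perm ℕ, (∀ n, Continuous fun s => c s n) ∧ (∀ s, c s ∈ B) ∧
      ∀ s t, TS x y (c s) (c t) → s = t) := by
  classical
  obtain ⟨B', hB', rfl⟩ := hB
  obtain ⟨m1, ψ1, p1, q1⟩ := selector x
  obtain ⟨m2, ψ2, p2, q2⟩ := selector y
  have bc : BorelSpace (Str (cc a b)) := by
    have b0 : ∀ i, BorelSpace ((Fin (cc a b i) → ℕ) → Bool) := fun i => Pi.borelSpace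
    exact Pi.borelSpace
  have ba : BorelSpace (Str a) := by
    have b0 : ∀ i, BorelSpace ((Fin (a i) → ℕ) → Bool) := fun i => Pi.borelSpace
    exact Pi.borelSpace
  have bb : BorelSpace (Str b) := by
    have b0 : ∀ i, BorelSpace ((Fin (b i) → ℕ) → Bool) := fun i => Pi.borelSpace
    exact Pi.borelSpace
  have hl : Measurable (left (a := a) (b := b)) := by
    have : Continuous (left (a := a) (b := b)) :=
      continuous_pi fun i => (continuous_apply (Sum.inl i)).comp (HC a b).continuous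
    exact this.measurable
  have hr : Measurable (right (a := a) (b := b)) := by
    have : Continuous (right (a := a) (b := b)) :=
      continuous_pi fun i => (continuous_apply (Sum.inr i)).comp (HC a b).continuous
    exact this.measurable
  let F : Str (cc a b) → (ℕ → ℕ) := fun z n => odd (ψ1 (left z)) (evn (ψ2 (right z)) n)
  have hF : Measurable F := by
    refine measurable_pi_iff.2 fun n => ?_
    have h1 : Continuous (fun p : (ℕ → ℕ) × (ℕ → ℕ) => odd p.1 (evn p.2 n)) :=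
      continuous_app (continuous_odd.comp continuous_fst)
        ((continuous_apply n).comp (continuous_evn.comp continuous_snd))
    exact h1.measurable.comp ((p1.comp hl).prodMk (p2.comp hr))
  let Z : Set (Str (cc a b)) := {z | Iso x (left z) ∧ Iso y (right z)}
  have hZ : MeasurableSet Z := (hl m1).inter (hr m2)
  let κ : Str (cc a b) → Equiv.Perm ℕ := fun z => if h : z ∈ Z then
    (prm _ (q2 _ h.2).1).trans (prm _ (q1 _ h.1).1).symm else 1
  have hκ : ∀ z ∈ Z, (κ z : ℕ → ℕ) = F z := by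
    intro z hz
    have : κ z = (prm _ (q2 _ hz.2).1).trans (prm _ (q1 _ hz.1).1).symm := dif_pos hz
    rw [this]
    rfl
  have hCZ : ∀ g, CG x y g ∈ Z := by
    intro g
    refine ⟨?_, ?_⟩
    · show Iso x (left (CG x y g))
      unfold CG
      rw [left_mk2]
      exact ⟨1, fun _ _ => rfl⟩
    · show Iso y (right (CG x y g))
      unfold CG
      rw [right_mk2]
      refine ⟨g, fun i v => ?_⟩
      show y i (⇑g.symm ∘ ⇑g ∘ v) = y i v
      congr 1
      funext j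
      exact g.symm_apply_apply (v j)
  have hCκ : ∀ z ∈ Z, Iso (CG x y (κ z)) z := by
    intro z hz
    rw [iso_iff]
    have e : κ z = (prm _ (q2 _ hz.2).1).trans (prm _ (q1 _ hz.1).1).symm := dif_pos hz
    have e1 := (q1 _ hz.1).2
    have e2 := (q2 _ hz.2).2
    have hp1 := (q1 _ hz.1).1
    have hp2 := (q2 _ hz.2).1
    refine ⟨prm _ hp1, fun i v => ?_, fun i v => ?_⟩
    · unfold CG
      rw [left_mk2]
      have e3 := congrFun (congrFun e1 i) (⇑(prm _ hp1) ∘ v)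
      rw [← e3]
      show x i (odd (ψ1 (left z)) ∘ evn (ψ1 (left z)) ∘ v) = x i v
      congr 1
      funext j
      exact hp1.2 (v j)
    · unfold CG
      rw [right_mk2, e]
      have e3 := congrFun (congrFun e2 i) (⇑(prm _ hp1) ∘ v)
      rw [← e3]
      rfl
  have hinvZ : ∀ z z' : Str (cc a b), Iso z z' → z ∈ Z → z' ∈ Z := by
    rintro z z' h ⟨h1, h2⟩
    obtain ⟨σ, h3, h4⟩ := (iso_iff z z').1 h
    exact ⟨h1.trans ⟨σ, h3⟩, h2.trans ⟨σ, h4⟩⟩
  have hTS : ∀ z ∈ Z, ∀ z' ∈ Z, Iso z z' ↔ TS x y (κ z) (κ z') := by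
    intro z hz z' hz'
    rw [← CG_iso]
    exact ⟨fun h => (hCκ z hz).trans (h.trans (hCκ z' hz').symm),
      fun h => (hCκ z hz).symm.trans (h.trans (hCκ z' hz'))⟩
  have hback : ∀ g, TS x y g (κ (CG x y g)) := fun g =>
    (CG_iso x y _ _).1 (hCκ _ (hCZ g)).symm
  have hsym : ∀ g g', TS x y g g' → TS x y g' g := fun g g' h =>
    (CG_iso x y _ _).1 ((CG_iso x y _ _).2 h).symm
  let Bs : Set (Str (cc a b)) := Z ∩ F ⁻¹' B'
  have hBs : ∀ z, z ∈ Bs ↔ z ∈ Z ∧ κ z ∈ (fun g : Equiv.Perm ℕ => (g : ℕ → ℕ)) ⁻¹' B' := by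
    intro z
    constructor
    · rintro ⟨h1, h2⟩
      refine ⟨h1, ?_⟩
      show (κ z : ℕ → ℕ) ∈ B'
      rw [hκ z h1]
      exact h2
    · rintro ⟨h1, h2⟩
      refine ⟨h1, ?_⟩
      show F z ∈ B'
      rw [← hκ z h1]
      exact h2
  have hinv : ∀ z z', Iso z z' → z ∈ Bs → z' ∈ Bs := by
    intro z z' h hz
    rw [hBs] at hz ⊢
    have hz' := hinvZ z z' h hz.1
    exact ⟨hz', hi _ _ ((hTS z hz.1 z' hz').1 h) hz.2⟩
  have hD := hV Bs (hZ.inter (hF hB')) (fun z z' h => ⟨hinv z z' h, hinv z' z h.symm⟩)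
    (fun z hz => hz.1)
  rcases hD with ⟨f, hf⟩ | ⟨c, h1, h2, h3⟩
  · left
    refine ⟨fun n => κ (f n), fun g hg => ?_⟩
    have h1 : CG x y g ∈ Bs := (hBs _).2 ⟨hCZ g, hi _ _ (hback g) hg⟩
    obtain ⟨n, hn⟩ := hf _ h1
    have h2 : f n ∈ Bs := hinv _ _ hn.symm h1
    refine ⟨n, ?_⟩
    have h3 := hn.trans (hCκ _ (hCZ g)).symm
    exact (CG_iso x y _ _).1 ((hCκ _ ((hBs _).1 h2).1).trans hn)
  · right
    have hm : Measurable (fun s => F (c s)) := hF.comp (h1 trivial).measurable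
    obtain ⟨h', h4, h5⟩ := cont_of_meas hm
    refine ⟨fun s => κ (c (h' s)), fun n => ?_, fun s => ((hBs _).1 (h2 _)).2, fun s t hst => ?_⟩
    · have e : (fun s => (κ (c (h' s)) : ℕ → ℕ) n) = fun s => (F (c (h' s))) n := by
        funext s
        rw [hκ _ ((hBs _).1 (h2 _)).1]
      rw [e]
      exact (continuous_apply n).comp h5
    · exact h4 (h3 _ _ ((hTS _ ((hBs _).1 (h2 _)).1 _ ((hBs _).1 (h2 _)).1).2 hst))

end Pool.Agent.Q216.TW
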